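import Pool.Agent.H75.Conf21.Inv
import Pool.Agent.H75.Conf21.Cyc
import Pool.Agent.H75.Conf21.NotCyc

/-!
Coordinates and incidences of (21_4) configurations, with the checks.
-/

namespace H75C

def c053cbb : Cfg where
  f := [-2, -1, 0]
  A := 1595282
  D := 1048576
  B := 2
  P := [[[1], [-1, -1], [1, 1, 1]],
    [[-1, 0, 0], [1], [-1, -1]],
    [[-1, 1, 0], [-1, 0, 0], [1]],
    [[], [1], [0, -1]],
    [[-2, 0, 1], [], [1]],
    [[-1, -1, 1], [-2, 0, 1], []],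
    [[1], [-1, 0, 1], [-1]],
    [[1, 1, -1], [1], [-1, 0, 1]],
    [[-1, 2, -1], [1, 1, -1], [1]],
    [[1], [-1, -1], [-1]],
    [[1, 1, -1], [1], [-1, -1]],
    [[-1, 1, 0], [1, 1, -1], [1]],
    [[1], [1], [-1, -1]],
    [[-1, 1, 0], [1], [1]],
    [[-1, -1, 1], [-1, 1, 0], [1]],
    [[1], [], []],
    [[0, 0, 0], [1], []],
    [[0, 0, 0], [0, 0, 0], [1]],
    [[], [1], [1, 1, 1]],
    [[-1, 0, 0], [], [1]],
    [[-1, -1, 1], [-1, 0, 0], []]]
  L := [[[1, 1, 1], [1], [0, -1]],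
    [[0, -1], [-1, 0, 0], [-1, -1, 1]],
    [[-1, -1, 1], [-2, 0, 1], [1, 1, -1]],
    [[1], [0, 1], [1]],
    [[1], [-1, -1, 1], [2, 0, -1]],
    [[2, 0, -1], [-1, -1, 1], [-3, 2, 0]],
    [[1], [], [1, -1]],
    [[1, -1], [-1, -1, 1], [0, 0, 0]],
    [[0, 0, 0], [-3, -1, 2], [-3, 2, 0]],
    [[1], [-1], [2, 0, -1]],
    [[2, 0, -1], [-1, -1, 1], [1, 1, -1]],
    [[1, 1, -1], [0, -3, 2], [-3, 2, 0]],
    [[1], [0, -1], [1]],
    [[1], [-1, -1, 1], [-2, 0, 1]],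
    [[-2, 0, 1], [-1, -1, 1], [-3, 2, 0]],
    [[], [1], []],
    [[], [0, 0, 0], [-1, -1, 1]],
    [[-1, -1, 1], [0, 0, 0], [0, 0, 0]],
    [[1], [], [1]],
    [[1], [-1, -1, 1], [0, 0, 0]],
    [[0, 0, 0], [-1, -1, 1], [-3, 2, 0]]]
  M := [150, 293, 75, 528396, 1056785, 278562, 75780, 147969, 37890, 3152, 2720, 1800, 548992, 1069312, 274496, 688144, 1146912, 458760, 590400, 1180800, 297216]

def n053cbb : List ℕ := [1205119, 316671, 604607, 989007, 1748183, 1428391, 867931, 1732278, 1367853, 741353, 1220570, 372724, 1897806, 1931477, 1995683, 2071858, 2075244, 2082457, 522602, 783068, 1308081]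

theorem c053cbb_conf : confCheck c053cbb.M = true := by decide +kernel

theorem c053cbb_geom : geomCheck c053cbb = true := by decide +kernel

theorem c053cbb_nb : nbCheck c053cbb.M n053cbb = true := by decide +kernel

theorem c053cbb_inv : invN n053cbb = (254829, 29385) := by decide +kernel

theorem c053cbb_cyc : cycCheck c053cbb [-1, -1, 1] = true := by decide +kernel

def c0a7e1f : Cfg where
  f := [2, -1, 0]
  A := -390
  D := 256
  B := 2
  P := [[[1, -1], [1], [-1]],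
    [[-1, 1, -1], [1, -1], [1]],
    [[1, -1, 1], [-1, 1, -1], [1, -1]],
    [[1], [], [2, 0, -1]],
    [[0, 1, 0], [1], []],
    [[0, 0, 0], [0, 1, 0], [1]],
    [[1], [1], [1, 1]],
    [[-1, 1, 0], [1], [1]],
    [[1, -1, 1], [-1, 1, 0], [1]],
    [[-1, 1], [], [1]],
    [[1, -1, 1], [-1, 1], []],
    [[0, 0, 0], [1, -1, 1], [-1, 1]],
    [[1], [1], [1, 0, -1]],
    [[-1, 2, -1], [1], [1]],
    [[1, -1, 1], [-1, 2, -1], [1]],
    [[1], [], []],
    [[0, 0, 0], [1], []],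
    [[0, 0, 0], [0, 0, 0], [1]],
    [[1], [-1], [1, -1, -1]],
    [[1, 0, 0], [1], [-1]],
    [[-1, 1, -1], [1, 0, 0], [1]]]
  L := [[[1], [0, -1], [1]],
    [[1], [1, -1, 1], [2, -2, 1]],
    [[2, -2, 1], [1, -1, 1], [5, -6, 4]],
    [[1], [0, 0, 1], [1, -1]],
    [[1, -1], [1, -1, 1], [2, -3, 2]],
    [[2, -3, 2], [3, -3, 2], [5, -6, 4]],
    [[], [-1, -1], [1]],
    [[1], [0, 0, 0], [1, -1, 0]],
    [[1, -1, 0], [1, -1, 1], [0, 0, 0]],
    [[1], [-1], []],
    [[], [1, -1, 1], [-1, 1, -1]],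
    [[-1, 1, -1], [0, 0, 0], [5, -6, 4]],
    [[-2, 0, 1], [1], [1]],
    [[1], [0, -1, 0], [1, -1, 1]],
    [[1, -1, 1], [1, -1, 1], [2, -2, 1]],
    [[1], [0, -1], [1, -1]],
    [[1, -1], [1, -1, 1], [2, -2, 1]],
    [[2, -2, 1], [3, -3, 2], [5, -6, 4]],
    [[], [1], []],
    [[], [0, 0, 0], [1, -1, 1]],
    [[1, -1, 1], [0, 0, 0], [0, 0, 0]]]
  M := [150, 293, 75, 1053188, 271361, 542722, 34884, 66177, 132354, 659520, 1089664, 344320, 12552, 24656, 20640, 786960, 1573920, 1312776, 164360, 99344, 198688]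

def n0a7e1f : List ℕ := [337903, 675295, 1088503, 1489739, 911062, 1793445, 718943, 1176247, 488751, 2069149, 2073907, 2082926, 1733612, 1373657, 883186, 1289948, 511921, 761706, 1928985, 1990258, 1883820]

theorem c0a7e1f_conf : confCheck c0a7e1f.M = true := by decide +kernel

theorem c0a7e1f_geom : geomCheck c0a7e1f = true := by decide +kernel

theorem c0a7e1f_nb : nbCheck c0a7e1f.M n0a7e1f = true := by decide +kernel

theorem c0a7e1f_inv : invN n0a7e1f = (254805, 29385) := by decide +kernel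

theorem c0a7e1f_cyc : cycCheck c0a7e1f [1, -1, 1] = true := by decide +kernel

def c0bb757 : Cfg where
  f := [1, -1, -1, -1]
  A := 38056
  D := 65536
  B := 1
  P := [[[0, 1], [1], [2, 1, -1]],
    [[0, 1, -1, 1], [0, 1], [1]],
    [[0, 0, 0, 1], [0, 1, -1, 1], [0, 1]],
    [[1], [1], [1]],
    [[0, 0, 0, 1], [1], [1]],
    [[0, 0, 0, 1], [0, 0, 0, 1], [1]],
    [[0, 0, -1], [], [1]],
    [[0, 0, 0, 1], [0, 0, -1], []],
    [[0, 0, 0, 0], [0, 0, 0, 1], [0, 0, -1]],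
    [[0, 0, -1, 1], [0, 1], [1]],
    [[0, 0, 0, 1], [0, 0, -1, 1], [0, 1]],
    [[-1, 1, 1, 1], [0, 0, 0, 1], [0, 0, -1, 1]],
    [[0, 1, -1], [0, 1], [1]],
    [[0, 0, 0, 1], [0, 1, -1], [0, 1]],
    [[-1, 1, 1, 1], [0, 0, 0, 1], [0, 1, -1]],
    [[1], [], []],
    [[0, 0, 0, 0], [1], []],
    [[0, 0, 0, 0], [0, 0, 0, 0], [1]],
    [[0, 0, 0, 1], [], [1]],
    [[0, 0, 0, 1], [0, 0, 0, 1], []],
    [[0, 0, 0, 0], [0, 0, 0, 1], [0, 0, 0, 1]]]
  L := [[[1], [0, 1], [0, -1, 0, -1]],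
    [[0, -1, 0, -1], [0, 0, 0, 1], [-1, 1, 1, 1]],
    [[-1, 1, 1, 1], [3, -2, -3, -5], [-2, 1, 2, 4]],
    [[0, 1], [-1, -1], [1]],
    [[1], [-1, 1, 1, 1], [1, -1, -1, -2]],
    [[1, -1, -1, -2], [0, 0, 0, 1], [-4, 2, 5, 6]],
    [[1], [], [0, 0, -1]],
    [[0, 0, -1], [0, 0, 0, 1], [0, 0, 0, 0]],
    [[0, 0, 0, 0], [1, 0, -2, -2], [-2, 1, 2, 4]],
    [[1], [], []],
    [[], [0, 0, 0, 1], [0, 0, 0, 0]],
    [[0, 0, 0, 0], [0, 0, 0, 0], [-2, 1, 2, 4]],
    [[1], [0, 0, -1], [0, 0, 0, -1]],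
    [[0, 0, 0, -1], [0, 0, 0, 1], [1, 0, -2, -2]],
    [[1, 0, -2, -2], [2, -1, -2, -4], [-2, 1, 2, 4]],
    [[1], [-1], [0, -1]],
    [[0, -1], [0, 0, 0, 1], [0, 0, 0, -1]],
    [[0, 0, 0, -1], [1, -1, -1, -1], [-2, 1, 2, 4]],
    [[1], [], [0, 0, 0, -1]],
    [[0, 0, 0, -1], [0, 0, 0, 1], [0, 0, 0, 0]],
    [[0, 0, 0, 0], [2, -1, -2, -4], [-2, 1, 2, 4]]]
  M := [150, 293, 75, 16908, 5137, 10274, 74756, 149505, 37378, 1245440, 426048, 622720, 286976, 544832, 1060992, 527616, 1051200, 263808, 327728, 655400, 1081368]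

def n0bb757 : List ℕ := [155007, 47871, 92095, 1753727, 1414335, 993599, 2021963, 1947286, 2059557, 1367758, 868245, 1732451, 1636051, 1408422, 949069, 2069210, 2074036, 2083177, 518128, 777704, 1293272]

theorem c0bb757_conf : confCheck c0bb757.M = true := by decide +kernel

theorem c0bb757_geom : geomCheck c0bb757 = true := by decide +kernel

theorem c0bb757_nb : nbCheck c0bb757.M n0bb757 = true := by decide +kernel

theorem c0bb757_inv : invN n0bb757 = (268581, 29817) := by decide +kernel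

def c0cd47a : Cfg where
  f := [-1, -1, 2]
  A := -143
  D := 256
  B := 1
  P := [[[1], [0, -1], [1, 0, -1]],
    [[1], [1, -1], [1, 0, -1]],
    [[], [1], [0, 1]],
    [[], [1], [-2, 2, 1]],
    [[1], [], [-1, 1, 1]],
    [[1], [], []],
    [[1], [1, 2, 1], [1, 1]],
    [[], [1], []],
    [[1, 1], [0, 1], [1]],
    [[], [], [1]],
    [[1], [0, 1, 1], [0, 1]],
    [[1], [], [0, 0, 1]],
    [[1], [0, 0, 1], [1, 0, -1]],
    [[1], [1], [1]],
    [[1], [0, -1], [0, 1]],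
    [[1], [0, 0, 1], [1, 1, -2]],
    [[1], [0, 0, 1], [1, 1, -1]],
    [[1], [1, 1], [0, 0, 1]],
    [[1], [1, 0, -1], [0, 0, 1]],
    [[1], [1], []],
    [[1], [1], [0, 1]]]
  L := [[[-1, 0, 1], [], [1]],
    [[-1, 1], [0, -1], [1]],
    [[1], [], []],
    [[1], [2, -1, -1], [0, -2, -1]],
    [[], [1], []],
    [[], [1], [-1, -1]],
    [[0, 0, -1], [-1, 0, 1], [1]],
    [[0, -1], [], [1]],
    [[0, 0, -1], [1, -1], [1]],
    [[0, 0, -1], [1], []],
    [[0, -1, -1], [-1, 1, 1], [1]],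
    [[0, 0, -1], [], [1]],
    [[1], [-1], [-1]],
    [[1], [-1], []],
    [[1], [-2, 2, 1], [-1]],
    [[1], [-2, 2, 1], [0, -2, -1]],
    [[], [-1, -1], [1]],
    [[0, 1], [0, -1], [1]],
    [[1], [-1, 1, 1], [-1, -1]],
    [[1], [-1], [0, -2, -1]],
    [[], [0, -1], [1]]]
  M := [4227, 8454, 652, 1304, 2608, 5216, 10305, 1066112, 51456, 102912, 205824, 395392, 790784, 1581568, 81992, 163857, 327714, 655428, 1310729, 540690, 1081380]

def n0cd47a : List ℕ := [1489115, 881079, 1745902, 1394653, 708411, 1416822, 752749, 1465999, 851230, 1686204, 1275384, 453617, 890851, 1781575, 1691098, 1301301, 521834, 1027285, 2038187, 1995606, 1894061]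

theorem c0cd47a_conf : confCheck c0cd47a.M = true := by decide +kernel

theorem c0cd47a_geom : geomCheck c0cd47a = true := by decide +kernel

theorem c0cd47a_nb : nbCheck c0cd47a.M n0cd47a = true := by decide +kernel

theorem c0cd47a_inv : invN n0cd47a = (231525, 29337) := by decide +kernel

def c11092e : Cfg where
  f := [-3, 0]
  A := -444
  D := 256
  B := 2
  P := [[[1], [], []],
    [[2], [3, 1], [0, -2]],
    [[2], [0, -2], [3, 1]],
    [[1, -1], [3], [0, -2]],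
    [[1, -1], [0, -2], [3]],
    [[], [1], [1, -1]],
    [[], [1, -1], [1]],
    [[1, -1], [1], [1, -1]],
    [[1, -1], [1, -1], [1]],
    [[2], [0, -1], []],
    [[2], [], [0, -1]],
    [[1], [0, -1], []],
    [[1], [], [0, -1]],
    [[], [1], []],
    [[], [], [1]],
    [[1], [-1, -1], [1]],
    [[1], [1], [-1, -1]],
    [[2, -1], [0, -1], [3]],
    [[2, -1], [3], [0, -1]],
    [[1], [0, -1], [0, -1]],
    [[1], [1], [1]]]
  L := [[[], [1], [-1, 1]],
    [[0, 1], [1], []],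
    [[0, 1], [2, 1], [2]],
    [[], [1], []],
    [[1], [], [-1]],
    [[0, 1], [1], [2]],
    [[0, -1], [-1, 1], [1]],
    [[0, 1], [1, 1], [2]],
    [[3, 1], [2], [-1, 1]],
    [[3, 2], [1], [1, 1]],
    [[0, 1], [2], [1, 1]],
    [[0, -1], [1], [-1, 1]],
    [[0, 1], [2], [1]],
    [[1], [-1], []],
    [[], [], [1]],
    [[], [-1, 1], [1]],
    [[0, 1], [2], [2, 1]],
    [[0, 1], [], [1]],
    [[-3, 1], [2], [2]],
    [[0, 1], [1], [1]],
    [[1], [], []]]
  M := [325, 542724, 197636, 21505, 1089664, 265472, 1310760, 1224, 688136, 851984, 816, 1179728, 135808, 1130752, 10753, 163, 295426, 536578, 30, 104448, 24672]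

def n11092e : List ℕ := [32743, 832191, 740703, 2000126, 2032510, 1336315, 1205757, 1226475, 1396597, 441267, 482765, 917253, 786051, 1637091, 1670501, 2079370, 2088212, 1808092, 1937210, 1046558, 1565176]

theorem c11092e_conf : confCheck c11092e.M = true := by decide +kernel

theorem c11092e_geom : geomCheck c11092e = true := by decide +kernel

theorem c11092e_nb : nbCheck c11092e.M n11092e = true := by decide +kernel

theorem c11092e_inv : invN n11092e = (286205, 29873) := by decide +kernel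

theorem c11092e_cls : Nat.gcd (clsN n11092e 113) (clsN n11092e 119) = 1 := by decide +kernel

def c182216 : Cfg where
  f := [-1, 1, 0, -2]
  A := -908865
  D := 1048576
  B := 1
  P := [[[1], [], []],
    [[0, 0, 0], [1], []],
    [[0, 0, 0], [0, 0, 0], [1]],
    [[1], [0, 1], []],
    [[0, 0, 0], [1], [0, 1]],
    [[0, 2, 1, -1], [0, 0, 0], [1]],
    [[1], [0, 0, 1, -1], []],
    [[0, 0, 0], [1], [0, 0, 1, -1]],
    [[0, 1, 1, -1], [0, 0, 0], [1]],
    [[0, -1], [1], [0, 0, 1]],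
    [[-1, 1, 2, -1], [0, -1], [1]],
    [[2, 1, -1], [-1, 1, 2, -1], [0, -1]],
    [[0, 0, 0, -1], [1], [0, 0, 1, -1]],
    [[0, 1, 1, -1], [0, 0, 0, -1], [1]],
    [[2, 1, -1], [0, 1, 1, -1], [0, 0, 0, -1]],
    [[1], [1], [1, -1, 1]],
    [[1, 0, 0, 0], [1], [1]],
    [[2, 1, -1], [1, 0, 0, 0], [1]],
    [[1], [0, 0, 1, -1], [1, -1, 1]],
    [[1, 0, 0, 0], [1], [0, 0, 1, -1]],
    [[0, 1, 1, -1], [1, 0, 0, 0], [1]]]
  L := [[[1], [], []],
    [[], [2, 1, -1], [0, 0, 0]],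
    [[0, 0, 0], [0, 0, 0], [5, 3, -3, 0]],
    [[0, 0, -1, 1], [1], []],
    [[], [0, -1, -1, 1], [2, 1, -1]],
    [[2, 1, -1], [0, 0, 0], [0, -3, -2, 2]],
    [[1], [-1], []],
    [[], [2, 1, -1], [-2, -1, 1]],
    [[-2, -1, 1], [0, 0, 0], [5, 3, -3, 0]],
    [[-1, 1], [0, -1], [1]],
    [[1], [-2, 1, 2, -1], [0, -2, -1, 1]],
    [[0, -2, -1, 1], [2, 1, -1], [-5, 2, 6, -3]],
    [[-1, 1], [0, -1, -1, 1], [1]],
    [[1], [-2, 1, 2, -1], [0, -3, -2, 2]],
    [[0, -3, -2, 2], [2, 1, -1], [-5, 2, 6, -3]],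
    [[-1, 2, -1], [0, -1], [1]],
    [[1], [-1, 2, 1, -1], [0, -2, -1, 1]],
    [[0, -2, -1, 1], [2, 1, -1], [-2, 4, 4, -3]],
    [[1], [-1, 1, 1], [0, -2, -1, 1]],
    [[0, -2, -1, 1], [2, 1, -1], [-3, 2, 4, -2]],
    [[-3, 2, 4, -2], [0, -5, -3, 3], [5, 3, -3, 0]]]
  M := [150, 293, 75, 278596, 528513, 1057026, 622596, 1245185, 425986, 66320, 132192, 34952, 265472, 526912, 1050240, 1085456, 335904, 671752, 21024, 13320, 26640]

def n182216 : List ℕ := [1774063, 1483231, 901623, 720075, 1178518, 489317, 937583, 1613471, 1388343, 1662960, 1458152, 847832, 1636025, 1408314, 948860, 2070686, 2073397, 2081899, 519526, 776909, 1292179]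

theorem c182216_conf : confCheck c182216.M = true := by decide +kernel

theorem c182216_geom : geomCheck c182216 = true := by decide +kernel

theorem c182216_nb : nbCheck c182216.M n182216 = true := by decide +kernel

theorem c182216_inv : invN n182216 = (266877, 29649) := by decide +kernel

theorem c182216_cyc : cycCheck c182216 [2, 1, -1] = true := by decide +kernel

end H75C
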