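import Pool.Agent.H75.Conf21.Inv
import Pool.Agent.H75.Conf21.Cyc
import Pool.Agent.H75.Conf21.NotCyc

/-!
Coordinates and incidences of (21_4) configurations, with the checks.
-/

namespace H75C

def c22e815 : Cfg where
  f := [-2, -2, 0]
  A := 452
  D := 256
  B := 2
  P := [[[1], [], []],
    [[0, 0], [1], []],
    [[0, 0], [0, 0], [1]],
    [[0, -1], [1], []],
    [[0, 0], [0, -1], [1]],
    [[-1, -1], [0, 0], [0, -1]],
    [[1], [1], []],
    [[0, 0], [1], [1]],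
    [[-1, -1], [0, 0], [1]],
    [[1], [1], [1]],
    [[-1, -1], [1], [1]],
    [[-1, -1], [-1, -1], [1]],
    [[1], [1, -1], [1]],
    [[-1, -1], [1], [1, -1]],
    [[-1, 0, 1], [-1, -1], [1]],
    [[1], [1, -1], [3, 0, -1]],
    [[-1, -1, 1], [1], [1, -1]],
    [[-1, 0, 1], [-1, -1, 1], [1]],
    [[1, 0, -1], [1], [-1]],
    [[1, 1], [1, 0, -1], [1]],
    [[-1, -1], [1, 1], [1, 0, -1]]]
  L := [[[1], [], []],
    [[], [-1, -1], [0, 0]],
    [[0, 0], [0, 0], [1, 2, 1]],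
    [[1], [-1], []],
    [[], [-1, -1], [1, 1]],
    [[1, 1], [0, 0], [1, 2, 1]],
    [[-1, 1], [1], []],
    [[], [1, 0, -1], [-1, -1]],
    [[-1, -1], [0, 0], [1, 1, 1]],
    [[1], [-1], [0, -1]],
    [[0, -1], [-1, -1], [1, 1]],
    [[1, 1], [0, 1, 1], [1, 2, 1]],
    [[1], [0, 1, 1], [1, 1]],
    [[1, 1], [-1, -1], [-2, -3, -2]],
    [[-2, -3, -2], [-1, -2, -1], [1, 2, 1]],
    [[1], [0, 1], [1]],
    [[1], [-1, -1], [0, -1, -1]],
    [[0, -1, -1], [-1, -1], [1, 2, 1]],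
    [[2], [0, 0, -1], [0, 0, -1]],
    [[0, 0, -1], [-2, -2], [2, 2, 1]],
    [[2, 2, 1], [2, 2, 1], [2, 4, 2]]]
  M := [150, 293, 75, 2628, 1665, 3330, 561156, 1122305, 409602, 135248, 41120, 82184, 274688, 548928, 1069184, 1573896, 1312784, 786976, 198688, 164360, 99344]

def n22e815 : List ℕ := [1124335, 413151, 564215, 1820491, 1547478, 1026981, 686687, 1111735, 359727, 954093, 1675163, 1511286, 2027988, 1962465, 2060746, 767676, 1305913, 514682, 1997618, 1898092, 1932441]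

theorem c22e815_conf : confCheck c22e815.M = true := by decide +kernel

theorem c22e815_geom : geomCheck c22e815 = true := by decide +kernel

theorem c22e815_nb : nbCheck c22e815.M n22e815 = true := by decide +kernel

theorem c22e815_inv : invN n22e815 = (256149, 29481) := by decide +kernel

theorem c22e815_cyc : cycCheck c22e815 [-1, -1] = true := by decide +kernel

def c2a312b : Cfg where
  f := [0]
  A := 0
  D := 256
  B := 1
  P := [[[1], [1], []],
    [[1], [4], [5]],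
    [[1], [], [1]],
    [[1], [-1], []],
    [[1], [-5], [-4]],
    [[4], [7], [5]],
    [[2], [-1], [-5]],
    [[], [1], [-1]],
    [[2], [1], [1]],
    [[1], [], []],
    [[], [1], []],
    [[1], [4], [2]],
    [[2], [-1], [-2]],
    [[], [], [1]],
    [[1], [1], [1]],
    [[1], [], [-1]],
    [[1], [2], [1]],
    [[1], [4], [-1]],
    [[5], [2], [1]],
    [[2], [-1], [-1]],
    [[], [3], [1]]]
  L := [[[1], [1], [-1]],
    [[1], [-4], [3]],
    [[4], [-1], []],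
    [[7], [-1], [3]],
    [[1], [2], []],
    [[1], [-3], [1]],
    [[1], [], [1]],
    [[1], [1], [-3]],
    [[1], [], []],
    [[], [1], []],
    [[1], [], [-1]],
    [[], [1], [-1]],
    [[1], [1], [1]],
    [[], [1], [-2]],
    [[3], [-1], [-1]],
    [[2], [1], [-3]],
    [[1], [-7], [9]],
    [[5], [-5], [3]],
    [[2], [-2], [3]],
    [[], [], [1]],
    [[1], [-1], [-1]]]
  M := [30, 282626, 141314, 1179728, 536640, 295232, 168960, 1114376, 1057920, 41476, 82948, 541440, 557192, 330240, 196768, 1067040, 786480, 99, 6161, 1545, 389]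

def n2a312b : List ℕ := [8191, 424063, 124831, 1673119, 1972351, 2050291, 2011507, 1811885, 1950669, 913165, 1308301, 1538611, 982099, 1752774, 1924902, 964556, 1527724, 1293554, 908146, 848888, 1273336]

theorem c2a312b_conf : confCheck c2a312b.M = true := by decide +kernel

theorem c2a312b_geom : geomCheck c2a312b = true := by decide +kernel

theorem c2a312b_nb : nbCheck c2a312b.M n2a312b = true := by decide +kernel

theorem c2a312b_inv : invN n2a312b = (268325, 29817) := by decide +kernel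

theorem c2a312b_cls : Nat.gcd (clsN n2a312b 109) (clsN n2a312b 105) = 1 := by decide +kernel

def c366e4a : Cfg where
  f := [1, -1, -1, -1]
  A := 38056
  D := 65536
  B := 1
  P := [[[0, -1, -1, -1], [1], [-1, 0, 0, 1]],
    [[-1, 1, 2, 2], [0, -1, -1, -1], [1]],
    [[-1, 0, 0, 1], [-1, 1, 2, 2], [0, -1, -1, -1]],
    [[1], [0, 1, -1], [-1, 1]],
    [[0, 0, 1, 0], [1], [0, 1, -1]],
    [[0, 0, 0, -1], [0, 0, 1, 0], [1]],
    [[], [1], [-1]],
    [[1, 0, 0, -1], [], [1]],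
    [[-1, 0, 0, 1], [1, 0, 0, -1], []],
    [[1], [], []],
    [[0, 0, 0, 0], [1], []],
    [[0, 0, 0, 0], [0, 0, 0, 0], [1]],
    [[1], [1], [-1, 1]],
    [[0, 0, 1, 0], [1], [1]],
    [[-1, 0, 0, 1], [0, 0, 1, 0], [1]],
    [[-1, 0, 1, 1], [], [1]],
    [[-1, 0, 0, 1], [-1, 0, 1, 1], []],
    [[0, 0, 0, 0], [-1, 0, 0, 1], [-1, 0, 1, 1]],
    [[0, -1], [1], [0, 1, -1]],
    [[0, 0, 0, -1], [0, -1], [1]],
    [[-1, 0, 0, 1], [0, 0, 0, -1], [0, -1]]]
  L := [[[1], [0, 0, -1, 1], [-1, 0, 0, 1]],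
    [[-1, 0, 0, 1], [-1, 0, 0, 1], [-1, 1, 1, 1]],
    [[-1, 1, 1, 1], [-1, 1, 2, 2], [-1, 1, 2, 2]],
    [[], [1], [0, 1]],
    [[0, 1], [0, 0, 0, 0], [-1, 0, 0, 1]],
    [[-1, 0, 0, 1], [-1, 0, 1, 1], [0, 0, 0, 0]],
    [[0, -1], [1], [1]],
    [[1], [1, 0, -1, -1], [-1, 0, 0, 1]],
    [[-1, 0, 0, 1], [-1, 0, 0, 1], [2, -1, -3, -4]],
    [[1], [], []],
    [[], [-1, 0, 0, 1], [0, 0, 0, 0]],
    [[0, 0, 0, 0], [0, 0, 0, 0], [-1, 1, 2, 2]],
    [[2, 0, 1, -1], [1], [1]],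
    [[1], [-1, -1, -1, 1], [-1, 0, 0, 1]],
    [[-1, 0, 0, 1], [-1, 0, 0, 1], [1, 1, 0, -1]],
    [[1], [0, -1], [1]],
    [[1], [-1, 0, 0, 1], [1, 0, -1, -1]],
    [[1, 0, -1, -1], [-1, 0, 0, 1], [-1, 1, 2, 2]],
    [[1], [0, 0, -1], []],
    [[], [-1, 0, 0, 1], [1, 0, -1, -2]],
    [[1, 0, -1, -2], [0, 0, 0, 0], [-1, 1, 2, 2]]]
  M := [150, 293, 75, 524812, 1049617, 264226, 69700, 139393, 49410, 134208, 35456, 67328, 819264, 1638528, 1442048, 151568, 45088, 90120, 534544, 1065504, 267272]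

def n366e4a : List ℕ := [1189375, 313855, 594943, 882255, 1735831, 1375015, 1023055, 1813143, 1558311, 1691564, 1515353, 962290, 521340, 784569, 1307450, 850914, 1669068, 1474001, 2006378, 1944284, 2049969]

theorem c366e4a_conf : confCheck c366e4a.M = true := by decide +kernel

theorem c366e4a_geom : geomCheck c366e4a = true := by decide +kernel

theorem c366e4a_nb : nbCheck c366e4a.M n366e4a = true := by decide +kernel

theorem c366e4a_inv : invN n366e4a = (254781, 29481) := by decide +kernel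

theorem c366e4a_cyc : cycCheck c366e4a [-1, 0, 0, 1] = true := by decide +kernel

def c377424 : Cfg where
  f := [-3, 0]
  A := 443
  D := 256
  B := 2
  P := [[[1], [], []],
    [[0], [1], []],
    [[0], [0], [1]],
    [[-1, -1], [1], []],
    [[0], [-1, -1], [1]],
    [[1], [0], [-1, -1]],
    [[1], [-1], []],
    [[0], [1], [-1]],
    [[-1], [0], [1]],
    [[1, -1], [1], [1, -1]],
    [[1, -1], [1, -1], [1]],
    [[1], [1, -1], [1, -1]],
    [[2], [-1], [2]],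
    [[2], [2], [-1]],
    [[-1], [2], [2]],
    [[2], [-1, -3], [2]],
    [[2], [2], [-1, -3]],
    [[-1, -3], [2], [2]],
    [[2], [2, 1], [-1, -1]],
    [[-1, -1], [2], [2, 1]],
    [[2, 1], [-1, -1], [2]]]
  L := [[[1], [], []],
    [[], [1], [0]],
    [[0], [0], [1]],
    [[-1, 1], [1], []],
    [[], [-1, 1], [1]],
    [[1], [0], [-1, 1]],
    [[1], [-1], []],
    [[], [1], [-1]],
    [[-1], [0], [1]],
    [[2], [-1, 3], [2]],
    [[2], [2], [-1, 3]],
    [[-1, 3], [2], [2]],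
    [[2], [-1], [2]],
    [[2], [2], [-1]],
    [[-1], [2], [2]],
    [[1, 1], [1], [1, 1]],
    [[1, 1], [1, 1], [1]],
    [[1], [1, 1], [1, 1]],
    [[2, -1], [-1, 1], [2]],
    [[2], [2, -1], [-1, 1]],
    [[-1, 1], [2], [2, -1]]]
  M := [150, 293, 75, 1574916, 1311233, 787458, 74756, 149505, 37378, 1245440, 426048, 622720, 549120, 1069120, 274560, 3344, 2656, 1672, 40984, 81968, 135208]

def n377424 : List ℕ := [1461103, 825055, 1650103, 177915, 126398, 220029, 1497707, 898718, 1797429, 1351403, 864158, 1724277, 1503978, 914844, 1800561, 1028826, 1828276, 1562985, 2012867, 1961350, 2054981]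

theorem c377424_conf : confCheck c377424.M = true := by decide +kernel

theorem c377424_geom : geomCheck c377424 = true := by decide +kernel

theorem c377424_nb : nbCheck c377424.M n377424 = true := by decide +kernel

theorem c377424_inv : invN n377424 = (290493, 30393) := by decide +kernel

def c3b29fe : Cfg where
  f := [-1, -1, 0, 0]
  A := -47481
  D := 65536
  B := 1
  P := [[[1], [0, 0, -1], [0, 0, -1]],
    [[0, 1, 0, 1], [1], [0, 0, -1]],
    [[0, 1, 0, 1], [0, 1, 0, 1], [1]],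
    [[1], [0, 0, -1], [1, 1, -1]],
    [[0, 0, -1, 0], [1], [0, 0, -1]],
    [[0, 1, 0, 1], [0, 0, -1, 0], [1]],
    [[-2, 0, -2, 1], [1], [1]],
    [[1, -1, 0, -1], [-2, 0, -2, 1], [1]],
    [[1, -1, 0, -1], [1, -1, 0, -1], [-2, 0, -2, 1]],
    [[0, 0, -1], [0, 0, -1], [1]],
    [[1, -1, 0, -1], [0, 0, -1], [0, 0, -1]],
    [[0, 1, 0, 1], [1, -1, 0, -1], [0, 0, -1]],
    [[1], [0, 0, -1], []],
    [[0, 0, 0, 0], [1], [0, 0, -1]],
    [[0, 1, 0, 1], [0, 0, 0, 0], [1]],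
    [[1], [], []],
    [[0, 0, 0, 0], [1], []],
    [[0, 0, 0, 0], [0, 0, 0, 0], [1]],
    [[], [1], [0, 0, -1, 1]],
    [[-1, 0, -1, 1], [], [1]],
    [[1, -1, 0, -1], [-1, 0, -1, 1], []]]
  L := [[[0, 0, 1, -1], [1], [1, -1, 0, -1]],
    [[1, -1, 0, -1], [1, 0, 1, -1], [1, -1, 0, -1]],
    [[1, -1, 0, -1], [3, 0, 2, -1], [2, -1, 1, -2]],
    [[1], [-1], []],
    [[], [1, -1, 0, -1], [-1, 1, 0, 1]],
    [[-1, 1, 0, 1], [0, 0, 0, 0], [3, 0, 2, -1]],
    [[1], [], [0, -1, 0, -1]],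
    [[0, -1, 0, -1], [1, -1, 0, -1], [0, 0, 0, 0]],
    [[0, 0, 0, 0], [2, 1, 2, 0], [3, 0, 2, -1]],
    [[0, 0, 0, -1], [0, 0, 1], [1]],
    [[1], [1, 1, 1, 0], [0, -1, 0, -1]],
    [[0, -1, 0, -1], [1, -1, 0, -1], [0, -2, -1, -2]],
    [[0, 0, 1], [1, 1, 1], [1]],
    [[1], [0, -1, 0, -1], [0, -2, -1, -2]],
    [[0, -2, -1, -2], [1, -1, 0, -1], [2, 1, 2, 0]],
    [[], [], [1]],
    [[1], [0, 0, 0, 0], [0, 0, 0, 0]],
    [[0, 0, 0, 0], [1, -1, 0, -1], [0, 0, 0, 0]],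
    [[0, 0, 1], [1], [0, -1, 0, -1]],
    [[0, -1, 0, -1], [0, -1, 0, -1], [1, -1, 0, -1]],
    [[1, -1, 0, -1], [2, 1, 2, 0], [2, 1, 2, 0]]]
  M := [1050692, 262785, 525570, 131844, 33857, 67714, 81956, 135177, 40978, 9348, 18689, 4674, 524400, 1048744, 262424, 1150976, 466944, 704512, 267296, 534536, 1065488]

def n3b29fe : List ℕ := [450505, 638930, 1273828, 1980857, 1893242, 1922300, 1613431, 1388207, 937759, 1463255, 832999, 1665487, 1545835, 1027230, 1821493, 1832019, 1570982, 1045261, 473017, 716154, 1170172]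

theorem c3b29fe_conf : confCheck c3b29fe.M = true := by decide +kernel

theorem c3b29fe_geom : geomCheck c3b29fe = true := by decide +kernel

theorem c3b29fe_nb : nbCheck c3b29fe.M n3b29fe = true := by decide +kernel

theorem c3b29fe_inv : invN n3b29fe = (256125, 29409) := by decide +kernel

theorem c3b29fe_cyc : cycCheck c3b29fe [1, -1, 0, -1] = true := by decide +kernel

def c3bc73c : Cfg where
  f := [1, -1, -1, -1]
  A := 9514
  D := 16384
  B := 1
  P := [[[1], [1], [1]],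
    [[0, 0, 0, -1], [1], [1]],
    [[0, 0, 0, -1], [0, 0, 0, -1], [1]],
    [[0, -1], [1], [1]],
    [[0, 0, 0, -1], [0, -1], [1]],
    [[0, 0, 0, -1], [0, 0, 0, -1], [0, -1]],
    [[1], [], []],
    [[0, 0, 0, 0], [1], []],
    [[0, 0, 0, 0], [0, 0, 0, 0], [1]],
    [[0, -1, 1], [1], []],
    [[0, 0, 0, 0], [0, -1, 1], [1]],
    [[0, 0, 0, -1], [0, 0, 0, 0], [0, -1, 1]],
    [[1, -1, -1], [0, -1], [1]],
    [[0, 0, 0, -1], [1, -1, -1], [0, -1]],
    [[-1, 1, 1, 1], [0, 0, 0, -1], [1, -1, -1]],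
    [[0, 0, 1], [1, 1, 1], [1]],
    [[0, 0, 0, -1], [0, 0, 1], [1, 1, 1]],
    [[2, -1, -3, -4], [0, 0, 0, -1], [0, 0, 1]],
    [[0, 1], [1], []],
    [[0, 0, 0, 0], [0, 1], [1]],
    [[0, 0, 0, -1], [0, 0, 0, 0], [0, 1]]]
  L := [[[1], [], [0, 0, 0, 1]],
    [[0, 0, 0, 1], [0, 0, 0, -1], [0, 0, 0, 0]],
    [[0, 0, 0, 0], [2, -1, -2, -4], [-2, 1, 2, 4]],
    [[1], [0, 1, 1, -1], [0, 0, 1]],
    [[0, 0, 1], [0, 0, 0, -1], [0, 0, -1, 1]],
    [[0, 0, -1, 1], [1, 0, -2, -2], [-2, 1, 2, 4]],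
    [[-3, -2, 0, 1], [1], [0, -1]],
    [[0, -1], [0, 1, 0, 1], [0, 0, 0, -1]],
    [[0, 0, 0, -1], [-1, 1, 1, 1], [3, -2, -3, -5]],
    [[1], [0, 1, -1], [0, 0, 1]],
    [[0, 0, 1], [0, 0, 0, -1], [0, -1, 1, 1]],
    [[0, -1, 1, 1], [1, 0, -2, -2], [-2, 1, 2, 4]],
    [[], [1], []],
    [[], [0, 0, 0, 0], [0, 0, 0, -1]],
    [[0, 0, 0, -1], [0, 0, 0, 0], [0, 0, 0, 0]],
    [[1], [0, 1], []],
    [[], [0, 0, 0, -1], [1, -1, -1, -1]],
    [[1, -1, -1, -1], [0, 0, 0, 0], [-2, 1, 2, 4]],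
    [[1], [0, 1, -1], [-1, 0, 0, 1]],
    [[-1, 0, 0, 1], [0, 0, 0, -1], [0, -1, 1, 1]],
    [[0, -1, 1, 1], [2, -1, -2, -3], [-2, 1, 2, 4]]]
  M := [150, 293, 75, 1069060, 274433, 548866, 622596, 1245185, 425986, 1049112, 263216, 526376, 1050944, 262848, 525696, 82184, 135248, 41120, 51712, 71168, 142336]

def n3bc73c : List ℕ := [1519983, 975071, 1692087, 1657723, 1447678, 830909, 1448923, 829430, 1658349, 1433304, 999344, 1765224, 1537621, 982179, 1702670, 1043110, 1824525, 1555539, 440051, 650670, 1268573]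

theorem c3bc73c_conf : confCheck c3bc73c.M = true := by decide +kernel

theorem c3bc73c_geom : geomCheck c3bc73c = true := by decide +kernel

theorem c3bc73c_nb : nbCheck c3bc73c.M n3bc73c = true := by decide +kernel

theorem c3bc73c_inv : invN n3bc73c = (273813, 29721) := by decide +kernel

end H75C
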