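import Pool.Agent.H75.Conf21.Inv
import Pool.Agent.H75.Conf21.Cyc
import Pool.Agent.H75.Conf21.NotCyc

/-!
Coordinates and incidences of (21_4) configurations, with the checks.
-/

namespace H75C

def c463e10 : Cfg where
  f := [-1, 3, -2, 3, -1]
  A := 24832
  D := 65536
  B := 1
  P := [[[1], [], []],
    [[0, 0, 0, 0], [1], []],
    [[0, 0, 0, 0], [0, 0, 0, 0], [1]],
    [[1, -2, 1, -1], [1], []],
    [[0, 0, 0, 0], [1, -2, 1, -1], [1]],
    [[0, -2, 1, -1], [0, 0, 0, 0], [1, -2, 1, -1]],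
    [[1], [1, -1, 0, -1], []],
    [[0, 0, 0, 0], [1], [1, -1, 0, -1]],
    [[0, -1, 0, 0, 0], [0, 0, 0, 0], [1]],
    [[0, 1, -1, 1], [1], [0, 1]],
    [[0, 0, -2, 1, -1], [0, 1, -1, 1], [1]],
    [[0, -2, 1, -1], [0, 0, -2, 1, -1], [0, 1, -1, 1]],
    [[0, 0, -2, 1, -1], [0, -1, 0, -1], [1]],
    [[0, -2, 1, -1], [0, 0, -2, 1, -1], [0, -1, 0, -1]],
    [[0, 1, -1, 1, 0], [0, -2, 1, -1], [0, 0, -2, 1, -1]],
    [[0, 0, -2, 1, -1], [1], [1]],
    [[0, -2, 1, -1], [0, 0, -2, 1, -1], [1]],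
    [[0, -2, 1, -1], [0, -2, 1, -1], [0, 0, -2, 1, -1]],
    [[1], [1], [1]],
    [[0, -2, 1, -1], [1], [1]],
    [[0, -2, 1, -1], [0, -2, 1, -1], [1]]]
  L := [[[1], [], []],
    [[], [0, -2, 1, -1], [0, 0, 0, 0]],
    [[0, 0, 0, 0], [0, 0, 0, 0], [-1, 4, -1, 1, 1]],
    [[1], [-1], []],
    [[], [0, -2, 1, -1], [0, 2, -1, 1]],
    [[0, 2, -1, 1], [0, 0, 0, 0], [-1, 4, -1, 1, 1]],
    [[0, -1], [1], []],
    [[], [0, 0, 2, -1, 1], [0, -2, 1, -1]],
    [[0, -2, 1, -1], [0, 0, 0, 0], [-1, 4, -6, 4, -2]],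
    [[-1, 1, 0, 1], [1], [0, -1, 0, -1]],
    [[0, -1, 0, -1], [0, 1, 0, 0, 0], [0, -2, 1, -1]],
    [[0, -2, 1, -1], [0, 1, -1, 1, 0], [0, 0, -2, 1, -1]],
    [[1], [-1, 2, -1, 1], [0, 0, 1, -1, 1]],
    [[0, 0, 1, -1, 1], [0, -2, 1, -1], [1, -2, 0, 0, -1]],
    [[1, -2, 0, 0, -1], [0, 1, -4, 3, -2], [-1, 4, -1, 1, 1]],
    [[0, -1, 0, -1], [-1, 1, 0, 1], [1]],
    [[1], [0, 1, -1, 1, 0], [0, 1, 0, 0, 0]],
    [[0, 1, 0, 0, 0], [0, -2, 1, -1], [1, -4, 3, -2, 0]],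
    [[2, -1, 1, -1], [-1, 1, 0, 1], [1]],
    [[1], [-1, 0, -1, 0, 0], [0, 1, 0, 0, 0]],
    [[0, 1, 0, 0, 0], [0, -2, 1, -1], [1, -1, 1, 0, 0]]]
  M := [150, 293, 75, 1441796, 819201, 1638402, 75780, 147969, 37890, 265280, 526976, 1050368, 4632, 9264, 18472, 286848, 545024, 1060928, 98440, 196880, 163936]

def n463e10 : List ℕ := [967535, 1676511, 1518007, 121595, 210878, 191869, 1490027, 912030, 1791797, 1728409, 1359730, 880364, 1636186, 1408244, 949161, 1021163, 1812894, 1557365, 2026693, 1956739, 2045766]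

theorem c463e10_conf : confCheck c463e10.M = true := by decide +kernel

theorem c463e10_geom : geomCheck c463e10 = true := by decide +kernel

theorem c463e10_nb : nbCheck c463e10.M n463e10 = true := by decide +kernel

theorem c463e10_inv : invN n463e10 = (257445, 29529) := by decide +kernel

theorem c463e10_cyc : cycCheck c463e10 [0, -2, 1, -1] = true := by decide +kernel

def c57b1de : Cfg where
  f := [-1, 1, 0, 0]
  A := 185
  D := 256
  B := 1
  P := [[[1], [], []],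
    [[0, 0, 0, 0], [1], []],
    [[0, 0, 0, 0], [0, 0, 0, 0], [1]],
    [[1, 0, 1], [1], []],
    [[0, 0, 0, 0], [1, 0, 1], [1]],
    [[-1, -1, 0, -1], [0, 0, 0, 0], [1, 0, 1]],
    [[0, 0, 1], [1], []],
    [[0, 0, 0, 0], [0, 0, 1], [1]],
    [[-1, -1, 0, -1], [0, 0, 0, 0], [0, 0, 1]],
    [[-1, -1, 0, -1], [0, 0, 1], [1]],
    [[-1, -1, 0, -1], [-1, -1, 0, -1], [0, 0, 1]],
    [[0, -1, 0, -1], [-1, -1, 0, -1], [-1, -1, 0, -1]],
    [[1, 0, 1], [1], [0, -1]],
    [[1, 0, 1, 0], [1, 0, 1], [1]],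
    [[-1, -1, 0, -1], [1, 0, 1, 0], [1, 0, 1]],
    [[-1, -1, 0, -1], [0, 0, 0, -1], [1]],
    [[-1, -1, 0, -1], [-1, -1, 0, -1], [0, 0, 0, -1]],
    [[1, -1, 1, 0], [-1, -1, 0, -1], [-1, -1, 0, -1]],
    [[0, 0, 1], [1], [0, 0, 1]],
    [[0, -1, 0, -1], [0, 0, 1], [1]],
    [[-1, -1, 0, -1], [0, -1, 0, -1], [0, 0, 1]]]
  L := [[[1], [], []],
    [[], [-1, -1, 0, -1], [0, 0, 0, 0]],
    [[0, 0, 0, 0], [0, 0, 0, 0], [3, 0, 2, 1]],
    [[1], [0, 0, -1], []],
    [[], [-1, -1, 0, -1], [0, 1, 0, 1]],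
    [[0, 1, 0, 1], [0, 0, 0, 0], [3, 0, 2, 1]],
    [[1], [-1], []],
    [[], [-1, -1, 0, -1], [1, 1, 0, 1]],
    [[1, 1, 0, 1], [0, 0, 0, 0], [3, 0, 2, 1]],
    [[1], [0, -1], [0, 1, 0, 1]],
    [[0, 1, 0, 1], [-1, -1, 0, -1], [1, 0, 1, 0]],
    [[1, 0, 1, 0], [-2, 1, -2, 0], [3, 0, 2, 1]],
    [[-1, 1], [1], [0, -1, 0, -1]],
    [[0, -1, 0, -1], [0, 1, -1, 1], [-1, -1, 0, -1]],
    [[-1, -1, 0, -1], [2, -1, 2, 0], [-2, 2, -2, 1]],
    [[0, 0, 0, -1], [1], [-1, 0, -1]],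
    [[-1, 0, -1], [1, -1, 1, 0], [-1, -1, 0, -1]],
    [[-1, -1, 0, -1], [1, 2, 0, 2], [0, -2, 1, -2]],
    [[0, 1], [0, 0, -1, -1], [1]],
    [[1], [-1, 0, -1, 0], [1, 0, 1, 1]],
    [[1, 0, 1, 1], [-1, -1, 0, -1], [1, 2, 0, 2]]]
  M := [150, 293, 75, 264260, 524929, 1049858, 74756, 149505, 37378, 136208, 43040, 82440, 140032, 50240, 71808, 278800, 528480, 1056904, 1376288, 917512, 1605648]

def n57b1de : List ℕ := [674799, 1087455, 339447, 2056907, 2020758, 1948005, 842863, 1653407, 1468215, 783243, 1307990, 522469, 761586, 1290156, 511833, 1638002, 1408684, 950041, 2050428, 2003705, 1942970]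

theorem c57b1de_conf : confCheck c57b1de.M = true := by decide +kernel

theorem c57b1de_geom : geomCheck c57b1de = true := by decide +kernel

theorem c57b1de_nb : nbCheck c57b1de.M n57b1de = true := by decide +kernel

theorem c57b1de_inv : invN n57b1de = (256101, 29409) := by decide +kernel

theorem c57b1de_cyc : cycCheck c57b1de [-1, -1, 0, -1] = true := by decide +kernel

def c5b198b : Cfg where
  f := [-3, 0]
  A := 443
  D := 256
  B := 2
  P := [[[-1, 1], [1], []],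
    [[0], [-1, 1], [1]],
    [[1], [0], [-1, 1]],
    [[2], [2], [-1]],
    [[-1], [2], [2]],
    [[2], [-1], [2]],
    [[1, -1], [1], [1, 1]],
    [[1, 1], [1, -1], [1]],
    [[1], [1, 1], [1, -1]],
    [[-1, -1], [], [1]],
    [[1], [-1, -1], []],
    [[0], [1], [-1, -1]],
    [[2, -1], [-1, 1], [2]],
    [[2], [2, -1], [-1, 1]],
    [[-1, 1], [2], [2, -1]],
    [[2], [-1, -1], [2, 1]],
    [[2, 1], [2], [-1, -1]],
    [[-1, -1], [2, 1], [2]],
    [[1], [], []],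
    [[0], [1], []],
    [[0], [0], [1]]]
  L := [[[2], [2, 1], [-1, -1]],
    [[-1, -1], [2], [2, 1]],
    [[2, 1], [-1, -1], [2]],
    [[], [1], []],
    [[], [0], [1]],
    [[1], [0], [0]],
    [[1, -1], [1, 1], [1]],
    [[1], [1, -1], [1, 1]],
    [[1, 1], [1], [1, -1]],
    [[2], [-1, 1], [2, -1]],
    [[2, -1], [2], [-1, 1]],
    [[-1, 1], [2, -1], [2]],
    [[1], [], [-1, -1]],
    [[-1, -1], [1], [0]],
    [[0], [-1, -1], [1]],
    [[], [1], [-1, 1]],
    [[-1, 1], [0], [1]],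
    [[1], [-1, 1], [0]],
    [[2], [-1], [2]],
    [[2], [2], [-1]],
    [[-1], [2], [2]]]
  M := [150, 293, 75, 1311236, 787457, 1574914, 75780, 147969, 37890, 3152, 2720, 1800, 548992, 1069312, 274496, 360576, 721152, 1212480, 81944, 135216, 41000]

def n5b198b : List ℕ := [935791, 1613023, 1387447, 124795, 220414, 179133, 1490011, 912054, 1791789, 1462189, 827227, 1650422, 1504626, 915692, 1799065, 1553642, 1042844, 1823601, 1947333, 2059651, 2022214]

theorem c5b198b_conf : confCheck c5b198b.M = true := by decide +kernel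

theorem c5b198b_geom : geomCheck c5b198b = true := by decide +kernel

theorem c5b198b_nb : nbCheck c5b198b.M n5b198b = true := by decide +kernel

theorem c5b198b_inv : invN n5b198b = (249573, 29529) := by decide +kernel

theorem c5b198b_cyc : cycCheck c5b198b [1] = true := by decide +kernel

def c7f5574 : Cfg where
  f := [-1, 1]
  A := 158
  D := 256
  B := 1
  P := [[[1], [0, -1], [-1, 1]],
    [[1, -1], [1], [0, -1]],
    [[0, 1], [1, -1], [1]],
    [[1], [1], [-1]],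
    [[1], [1], [1]],
    [[-1], [1], [1]],
    [[0, 1], [-3, -1], [1]],
    [[-1], [0, 1], [-3, -1]],
    [[3, 1], [-1], [0, 1]],
    [[1], [1], [3, 2]],
    [[-3, -2], [1], [1]],
    [[-1], [-3, -2], [1]],
    [[], [1], [0, -1]],
    [[0, 1], [], [1]],
    [[-1], [0, 1], []],
    [[1], [], []],
    [[0], [1], []],
    [[0], [0], [1]],
    [[], [1], [1, -1]],
    [[-1, 1], [], [1]],
    [[-1], [-1, 1], []]]
  L := [[[1], [0, -1], [-1, 1]],
    [[-1, 1], [-1], [0, 1]],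
    [[0, 1], [1, -1], [1]],
    [[1], [-2, -1], [1, -1]],
    [[1, -1], [-1], [2, 1]],
    [[2, 1], [-1, 1], [1]],
    [[1], [], [0, -1]],
    [[0, -1], [-1], [0]],
    [[0], [0, 1], [1]],
    [[], [], [1]],
    [[1], [0], [0]],
    [[0], [-1], [0]],
    [[-2, -3], [-1, 1], [1]],
    [[1], [2, 3], [1, -1]],
    [[1, -1], [-1], [-2, -3]],
    [[1], [-1], []],
    [[], [-1], [1]],
    [[1], [0], [1]],
    [[1], [-1, 1], [0, -1]],
    [[0, -1], [-1], [1, -1]],
    [[1, -1], [0, 1], [1]]]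
  M := [150, 293, 75, 1573380, 1311745, 788482, 73796, 147585, 37122, 1163264, 462848, 696320, 262848, 525696, 1050944, 131608, 33840, 67624, 14352, 25120, 21512]

def n7f5574 : List ℕ := [1459695, 825823, 1647607, 220795, 179902, 126781, 1387471, 935895, 1613287, 1991420, 1889721, 1915258, 523546, 785012, 1308329, 1832242, 1570924, 1045145, 2039491, 2011014, 1953605]

theorem c7f5574_conf : confCheck c7f5574.M = true := by decide +kernel

theorem c7f5574_geom : geomCheck c7f5574 = true := by decide +kernel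

theorem c7f5574_nb : nbCheck c7f5574.M n7f5574 = true := by decide +kernel

theorem c7f5574_inv : invN n7f5574 = (257469, 29625) := by decide +kernel

theorem c7f5574_cyc : cycCheck c7f5574 [-1] = true := by decide +kernel

def c84e3af : Cfg where
  f := [-1, 1, 0, 2, 1, -3]
  A := -957
  D := 1024
  B := 1
  P := [[[1], [1], [0, -1]],
    [[0, -1], [1], [1]],
    [[1], [0, -1], [1]],
    [[], [1], [1, -1]],
    [[1, -1], [], [1]],
    [[1], [1, -1], []],
    [[0, -1, -1, -1, 1], [0, 0, -1, 0, 2, -1], [1]],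
    [[1], [0, -1, -1, -1, 1], [0, 0, -1, 0, 2, -1]],
    [[0, 0, -1, 0, 2, -1], [1], [0, -1, -1, -1, 1]],
    [[1], [], []],
    [[0], [1], []],
    [[0], [0], [1]],
    [[], [1], [0, -1]],
    [[0, -1], [], [1]],
    [[1], [0, -1], []],
    [[0, -1], [-1, 0, 0, 0, 2, -1], [1]],
    [[1], [0, -1], [-1, 0, 0, 0, 2, -1]],
    [[-1, 0, 0, 0, 2, -1], [1], [0, -1]],
    [[0, 1, 1, -1], [1], [1, -1, 1, 0, -2, 1]],
    [[1, -1, 1, 0, -2, 1], [0, 1, 1, -1], [1]],
    [[1], [1, -1, 1, 0, -2, 1], [0, 1, 1, -1]]]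
  L := [[[1], [1], [-1, 1]],
    [[-1, 1], [1], [1]],
    [[1], [-1, 1], [1]],
    [[-1, -1, 1], [-1, 1], [1]],
    [[1], [-1, -1, 1], [-1, 1]],
    [[-1, 1], [1], [-1, -1, 1]],
    [[0, 1], [1], []],
    [[], [0, 1], [1]],
    [[1], [0], [0, 1]],
    [[1], [], []],
    [[], [1], [0]],
    [[0], [0], [1]],
    [[], [1], [0, -1, -1, 1]],
    [[0, -1, -1, 1], [0], [1]],
    [[1], [0, -1, -1, 1], [0]],
    [[0, -1, 1], [-1, 1], [1]],
    [[1], [0, -1, 1], [-1, 1]],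
    [[-1, 1], [1], [0, -1, 1]],
    [[0, 1], [1], [0, 0, 2, 1, -1]],
    [[0, 0, 2, 1, -1], [0, 1], [1]],
    [[1], [0, 0, 2, 1, -1], [0, 1]]]
  M := [150, 293, 75, 655372, 1081361, 327714, 83972, 135681, 41986, 7176, 10768, 17952, 1638912, 1442816, 821248, 278664, 528656, 1056864, 147776, 37056, 74112]

def n84e3af : List ℕ := [1217407, 369919, 739775, 941263, 1620887, 1402727, 1241579, 389598, 750069, 1801777, 1506858, 917020, 696281, 1159154, 479212, 1883347, 1928102, 1988429, 2084010, 2071324, 2074225]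

theorem c84e3af_conf : confCheck c84e3af.M = true := by decide +kernel

theorem c84e3af_geom : geomCheck c84e3af = true := by decide +kernel

theorem c84e3af_nb : nbCheck c84e3af.M n84e3af = true := by decide +kernel

theorem c84e3af_inv : invN n84e3af = (262773, 29625) := by decide +kernel

theorem c84e3af_cyc : cycCheck c84e3af [1] = true := by decide +kernel

def c85f7f3 : Cfg where
  f := [1, 1, 0]
  A := -175
  D := 256
  B := 1
  P := [[[], [0, -1], [1]],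
    [[1], [2, 0, 1], []],
    [[1], [], []],
    [[-2, 1, -2], [1], []],
    [[], [1], []],
    [[0, -1], [1], [-1]],
    [[1], [1, 1], [0, 0, 1]],
    [[0, -1, -1], [1, -1, -1], [1]],
    [[0, 1], [0, -1], [1]],
    [[1, 0, -1], [1, 0, -1], [1]],
    [[], [0, -1, -1], [1]],
    [[1, 1, 1], [0, 0, 1], [1]],
    [[], [], [1]],
    [[1], [1], [1]],
    [[0, 1], [], [1]],
    [[2], [1], [2, -1, 1]],
    [[0, -1, -1], [1, 0, -2], [1]],
    [[0, 0, 1], [-1, -2], [1]],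
    [[0, -1, -1], [0, -1, -1], [1]],
    [[0, -1], [0, -1, -1], [1]],
    [[1, 1], [], [1]]]
  L := [[[], [1], [0, 1]],
    [[], [1], []],
    [[], [1], [0, 1, 1]],
    [[2], [-1, 1], [-1, -1]],
    [[0, -1], [1], [0, 1, 1]],
    [[1], [2, -1, 2], [-2, 0, -1]],
    [[1], [2, -1, 2], [-2, -1, -1]],
    [[0, 1, 1], [-1, -1, -1], [1]],
    [[-1, -1], [1], []],
    [[-1, -1], [1], [0, 1, 1]],
    [[1], [-1], []],
    [[1], [-1], [-1, -1]],
    [[1], [], []],
    [[1], [], [0, -1]],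
    [[1], [], [0, 1, 1]],
    [[1], [0, 0, 1], [-1, -1, -1]],
    [[1], [-3, 1, -1], [0, -1]],
    [[-2, 0, -1], [1], [0, 1]],
    [[-2, 0, -1], [1], [1, 1, 1]],
    [[-1, 1], [0, -1], [1]],
    [[], [], [1]]]
  M := [325, 1069060, 787460, 204832, 1115392, 2569, 164104, 8392, 593984, 150528, 274944, 1083424, 5137, 16688, 327824, 557696, 311360, 163, 1180162, 534530, 30]

def n85f7f3 : List ℕ := [8191, 1714879, 1856863, 175071, 349631, 1305011, 913869, 893691, 1295741, 2013835, 2055445, 1764907, 1930837, 998122, 1498484, 2018280, 2045424, 1306410, 915156, 900806, 1302310]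

theorem c85f7f3_conf : confCheck c85f7f3.M = true := by decide +kernel

theorem c85f7f3_geom : geomCheck c85f7f3 = true := by decide +kernel

theorem c85f7f3_nb : nbCheck c85f7f3.M n85f7f3 = true := by decide +kernel

theorem c85f7f3_inv : invN n85f7f3 = (273693, 29817) := by decide +kernel

theorem c85f7f3_cls : Nat.gcd (clsN n85f7f3 111) (clsN n85f7f3 109) = 1 := by decide +kernel

end H75C
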