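import Pool.Agent.H75.Conf21.Inv
import Pool.Agent.H75.Conf21.Cyc
import Pool.Agent.H75.Conf21.NotCyc

/-!
Coordinates and incidences of (21_4) configurations, with the checks.
-/

namespace H75C

def c874a11 : Cfg where
  f := [-2, -3]
  A := 911
  D := 256
  B := 4
  P := [[[5, -1], [-2, 1], [3]],
    [[1], [], []],
    [[], [1], []],
    [[2], [-1, 1], []],
    [[-1, 1], [2], []],
    [[8], [-2, 3], [8]],
    [[1], [], [-1, -3]],
    [[], [], [1]],
    [[1], [1], [1]],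
    [[5, -1], [-2, 1], [4]],
    [[6, -1], [-1, 1], [4]],
    [[1], [], [1, 1]],
    [[-1, 1], [2], [-1, 1]],
    [[-5, 2], [2], [-2, 2]],
    [[-4, 2], [3], [-2, 2]],
    [[-1, 1], [2], [0, 2]],
    [[4], [0, 1], [2, 1]],
    [[-5, 2], [2], [-4, 2]],
    [[4], [0, 1], [4, 2]],
    [[4], [0, 1], [3, 1]],
    [[3], [-1, 1], [3, 1]]]
  L := [[[1, 3], [-2, -4], [1]],
    [[-2, -2], [3, 1], [2]],
    [[-2, -1], [], [2]],
    [[-3, -1], [], [4]],
    [[1], [], [-1]],
    [[-2, -2], [0, 2], [1]],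
    [[-1, -1], [0, 1], [1]],
    [[-3, -1], [-2, 2], [1]],
    [[2], [-1], [-4, 1]],
    [[-2, -2], [1, 2], [1]],
    [[2, -3], [8], []],
    [[1, 3], [-2, -3], [1]],
    [[0, -1], [4], []],
    [[0, 1], [0, -2], [2]],
    [[2, 6], [-5, -7], [2]],
    [[2], [1, -1], []],
    [[0, 2], [-2, -2], [1]],
    [[], [1], []],
    [[], [1, -1], [1]],
    [[], [2, -1], [1]],
    [[], [], [1]]]
  M := [1314880, 657440, 295428, 541700, 4388, 271368, 67848, 1065000, 43009, 1212672, 673, 1345, 852096, 86017, 532560, 37008, 147984, 2242, 1057282, 197634, 30]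

def n874a11 : List ℕ := [131041, 1257182, 841534, 1404222, 717534, 1727405, 1850835, 891635, 1285485, 1499831, 1008975, 764395, 1430005, 1879643, 1791549, 1489813, 1006987, 1822514, 1947340, 1010932, 1504106]

theorem c874a11_conf : confCheck c874a11.M = true := by decide +kernel

theorem c874a11_geom : geomCheck c874a11 = true := by decide +kernel

theorem c874a11_nb : nbCheck c874a11.M n874a11 = true := by decide +kernel

theorem c874a11_inv : invN n874a11 = (249565, 29441) := by decide +kernel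

theorem c874a11_cls : Nat.gcd (clsN n874a11 111) (clsN n874a11 109) = 1 := by decide +kernel

def cb78dc2 : Cfg where
  f := [-2, 3]
  A := 617433847293
  D := 1099511627776
  B := 1
  P := [[[-1, 1], [], [2]],
    [[2, -4], [-1, 1], []],
    [[0, 0], [2, -4], [-1, 1]],
    [[0, -1], [], [2]],
    [[2, -4], [0, -1], []],
    [[0, 0], [2, -4], [0, -1]],
    [[0, -1], [0, -1], [1]],
    [[1, -2], [0, -1], [0, -1]],
    [[4, -7], [1, -2], [0, -1]],
    [[1], [], []],
    [[0, 0], [1], []],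
    [[0, 0], [0, 0], [1]],
    [[-1, 1], [-1, 1], [2]],
    [[2, -4], [-1, 1], [-1, 1]],
    [[-5, 9], [2, -4], [-1, 1]],
    [[0, 1], [1], [-1]],
    [[-1, 2], [0, 1], [1]],
    [[1, -2], [-1, 2], [0, 1]],
    [[-1, 2], [1], [1]],
    [[1, -2], [-1, 2], [1]],
    [[1, -2], [1, -2], [-1, 2]]]
  L := [[[-3, -1], [1], [0, -1]],
    [[0, -1], [1, -1], [1, -2]],
    [[1, -2], [4, -7], [5, -9]],
    [[], [1], [0, -1]],
    [[0, -1], [0, 0], [1, -2]],
    [[1, -2], [4, -7], [0, 0]],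
    [[1], [], []],
    [[], [1, -2], [0, 0]],
    [[0, 0], [0, 0], [9, -16]],
    [[2], [-1], [0, 1]],
    [[0, 1], [2, -4], [-1, 2]],
    [[-1, 2], [-4, 7], [18, -32]],
    [[], [1], [-1]],
    [[-1], [0, 0], [1, -2]],
    [[1, -2], [-1, 2], [0, 0]],
    [[1], [-1], [1, -1]],
    [[1, -1], [1, -2], [-1, 2]],
    [[-1, 2], [5, -9], [9, -16]],
    [[2], [-2, 1], [0, 1]],
    [[0, 1], [2, -4], [-6, 11]],
    [[-6, 11], [-4, 7], [18, -32]]]
  M := [790532, 1581057, 1327106, 82436, 136193, 43010, 3108, 2569, 1554, 204, 401, 354, 270976, 541952, 1054784, 204832, 180232, 102416, 1114376, 393296, 557216]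

def nb78dc2 : List ℕ := [1720217, 1372018, 876268, 1297357, 497619, 765414, 1448446, 828413, 1656315, 355999, 679735, 1097327, 2071637, 2075299, 2082574, 784570, 1307452, 521337, 1995478, 1897893, 1931595]

theorem cb78dc2_conf : confCheck cb78dc2.M = true := by decide +kernel

theorem cb78dc2_geom : geomCheck cb78dc2 = true := by decide +kernel

theorem cb78dc2_nb : nbCheck cb78dc2.M nb78dc2 = true := by decide +kernel

theorem cb78dc2_inv : invN nb78dc2 = (246933, 29241) := by decide +kernel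

theorem cb78dc2_cyc : cycCheck cb78dc2 [1, -2] = true := by decide +kernel

def cc2dd7f : Cfg where
  f := [-2, 5]
  A := 95
  D := 256
  B := 1
  P := [[[1], [1], []],
    [[1], [], [1]],
    [[0, -1], [1], [1, -1]],
    [[0, 1], [1], [1, 1]],
    [[], [1], [1]],
    [[], [1], [-1]],
    [[2], [1], [1]],
    [[2], [3, 1], [1, -1]],
    [[6], [3], [-1, -1]],
    [[4, 4], [6], [0, 3]],
    [[0, 3], [1], [-1, 2]],
    [[2], [3], [1]],
    [[2], [1], [-1]],
    [[1], [], []],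
    [[], [1], []],
    [[4, 1], [1], [-1]],
    [[0, 2], [2], [0, 1]],
    [[0, 1], [1], [0, 1]],
    [[-3, -1], [], [2]],
    [[], [], [1]],
    [[1], [1], [1]]]
  L := [[[1], [1], [-1]],
    [[1], [], [-1]],
    [[], [1], []],
    [[1], [-2], []],
    [[], [1], [-1]],
    [[1], [], [-2]],
    [[1], [], [4, 1]],
    [[2], [-1, -1], [3, 1]],
    [[0, -1], [1], [-1, 1]],
    [[2], [-2, 1], [2, 1]],
    [[-2, 1], [2], [-2, -2]],
    [[1], [0, -1], []],
    [[-1, -1], [2], [-4]],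
    [[], [0, -1], [2]],
    [[], [1], [1]],
    [[1], [], []],
    [[2], [-1], [-1]],
    [[1], [-1], [-1]],
    [[1], [-1], [1]],
    [[3], [-3], [1, 1]],
    [[1, 1], [-1, -1], [3]]]
  M := [30, 1196034, 794626, 528704, 1056848, 84032, 50432, 328708, 1343496, 136320, 264960, 720904, 164356, 74368, 45088, 540720, 1050784, 99, 6161, 1545, 389]

def nc2dd7f : List ℕ := [8191, 1990783, 493471, 2065951, 1603711, 1636595, 1669491, 1261477, 843717, 503693, 513933, 1399793, 703985, 1946354, 1822066, 1505068, 1011404, 1824398, 1945358, 1012090, 1501434]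

theorem cc2dd7f_conf : confCheck cc2dd7f.M = true := by decide +kernel

theorem cc2dd7f_geom : geomCheck cc2dd7f = true := by decide +kernel

theorem cc2dd7f_nb : nbCheck cc2dd7f.M nc2dd7f = true := by decide +kernel

theorem cc2dd7f_inv : invN nc2dd7f = (271253, 29937) := by decide +kernel

theorem cc2dd7f_cls : Nat.gcd (clsN nc2dd7f 109) (clsN nc2dd7f 113) = 1 := by decide +kernel

def cc2f0f3 : Cfg where
  f := [-3, 0]
  A := 443
  D := 256
  B := 2
  P := [[[1], [], []],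
    [[0], [1], []],
    [[0], [0], [1]],
    [[-1, -1], [1], []],
    [[0], [-1, -1], [1]],
    [[1], [0], [-1, -1]],
    [[1], [-1], []],
    [[0], [1], [-1]],
    [[-1], [0], [1]],
    [[1, -1], [1], [1, -1]],
    [[1, -1], [1, -1], [1]],
    [[1], [1, -1], [1, -1]],
    [[2], [-1], [2]],
    [[2], [2], [-1]],
    [[-1], [2], [2]],
    [[2], [-1, -3], [2]],
    [[2], [2], [-1, -3]],
    [[-1, -3], [2], [2]],
    [[2], [-1, -1], [2, 1]],
    [[2, 1], [2], [-1, -1]],
    [[-1, -1], [2, 1], [2]]]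
  L := [[[1], [], []],
    [[], [1], [0]],
    [[0], [0], [1]],
    [[1], [-1, 1], []],
    [[], [1], [-1, 1]],
    [[-1, 1], [0], [1]],
    [[1], [-1], []],
    [[], [1], [-1]],
    [[-1], [0], [1]],
    [[2], [-1, 3], [2]],
    [[2], [2], [-1, 3]],
    [[-1, 3], [2], [2]],
    [[2], [-1], [2]],
    [[2], [2], [-1]],
    [[-1], [2], [2]],
    [[1, 1], [1], [1, 1]],
    [[1, 1], [1, 1], [1]],
    [[1], [1, 1], [1, 1]],
    [[2, -1], [-1, 1], [2]],
    [[2], [2, -1], [-1, 1]],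
    [[-1, 1], [2], [2, -1]]]
  M := [150, 293, 75, 1311236, 787457, 1574914, 74756, 149505, 37378, 459008, 688192, 1147008, 549120, 1069120, 274560, 3344, 2656, 1672, 40984, 81968, 135208]

def nc2f0f3 : List ℕ := [937327, 1612511, 1386423, 177915, 126398, 220029, 1759851, 1423006, 1010997, 1351406, 864157, 1724275, 1503978, 914844, 1800561, 1815258, 1566132, 1038697, 2045829, 2026819, 1956550]

theorem cc2f0f3_conf : confCheck cc2f0f3.M = true := by decide +kernel

theorem cc2f0f3_geom : geomCheck cc2f0f3 = true := by decide +kernel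

theorem cc2f0f3_nb : nbCheck cc2f0f3.M nc2f0f3 = true := by decide +kernel

theorem cc2f0f3_inv : invN nc2f0f3 = (282189, 30009) := by decide +kernel

def cc82d6a : Cfg where
  f := [2, -2, 0]
  A := -115953
  D := 65536
  B := 2
  P := [[[2], [0, 0, 1], [0, 0, -1]],
    [[-2, 0, 1], [2], [0, 0, 1]],
    [[2, 0, -1], [-2, 0, 1], [2]],
    [[], [1], [-1]],
    [[-1, 1, 1], [], [1]],
    [[1, -1, -1], [-1, 1, 1], []],
    [[0, -1], [1], [-1]],
    [[-1, 1, 1], [0, -1], [1]],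
    [[1, -1, -1], [-1, 1, 1], [0, -1]],
    [[1], [], [1, 0, -1]],
    [[-1, -1, 0], [1], []],
    [[0, 0, 0], [-1, -1, 0], [1]],
    [[1], [], []],
    [[0, 0, 0], [1], []],
    [[0, 0, 0], [0, 0, 0], [1]],
    [[1], [0, -1], [1]],
    [[1, -1, -1], [1], [0, -1]],
    [[-2, 1, 1], [1, -1, -1], [1]],
    [[1], [0, -1], [-1, 1]],
    [[1, 0, 0], [1], [0, -1]],
    [[-2, 1, 1], [1, 0, 0], [1]]]
  L := [[[1], [1], []],
    [[], [1, -1, -1], [1, -1, -1]],
    [[1, -1, -1], [0, 0, 0], [-3, 0, 1]],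
    [[1, -1, 1], [1], [1, -1]],
    [[1, -1], [1, 0, -1], [1, -1, -1]],
    [[1, -1, -1], [-1, 0, 0], [-1, -1, 0]],
    [[], [0, 1], [1]],
    [[1], [0, 0, 0], [2, -1, -1]],
    [[2, -1, -1], [1, -1, -1], [0, 0, 0]],
    [[1], [1, 1], [1]],
    [[1], [1, -1, -1], [3, -2, -2]],
    [[3, -2, -2], [1, -1, -1], [-3, 0, 1]],
    [[1], [1], [1, -1, -1]],
    [[1, -1, -1], [1, -1, -1], [1, -1, -1]],
    [[1, -1, -1], [-3, 0, 1], [-3, 0, 1]],
    [[1, -1], [1, 0, -1], [1]],
    [[1], [-1, 0, 0], [-1, -1, 0]],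
    [[-1, -1, 0], [1, -1, -1], [-1, 1, 1]],
    [[1], [], []],
    [[], [1, -1, -1], [0, 0, 0]],
    [[0, 0, 0], [0, 0, 0], [-3, 0, 1]]]
  M := [16676, 4169, 8338, 1311236, 787457, 1574914, 593924, 1187841, 311298, 1220, 2433, 834, 1114160, 393256, 557080, 165120, 100416, 197248, 26632, 21008, 13344]

def nc82d6a : List ℕ := [1981897, 1895378, 1923044, 981113, 1700538, 1537340, 106447, 208855, 184295, 1528790, 964069, 1698251, 620157, 1211579, 326462, 1035610, 1809140, 1550249, 2016815, 1940511, 2042423]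

theorem cc82d6a_conf : confCheck cc82d6a.M = true := by decide +kernel

theorem cc82d6a_geom : geomCheck cc82d6a = true := by decide +kernel

theorem cc82d6a_nb : nbCheck cc82d6a.M nc82d6a = true := by decide +kernel

theorem cc82d6a_inv : invN nc82d6a = (256101, 29481) := by decide +kernel

theorem cc82d6a_cyc : cycCheck cc82d6a [1, -1, -1] = true := by decide +kernel

def ce27fb5 : Cfg where
  f := [1, -1, -1, -1]
  A := 9514
  D := 16384
  B := 1
  P := [[[0, -1], [1], [-1, 1]],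
    [[1, -1, -1, 0], [0, -1], [1]],
    [[0, 0, 0, -1], [1, -1, -1, 0], [0, -1]],
    [[0, 0, 0, -1], [0, 0, 0, -1], [1]],
    [[0, 0, 0, -1], [0, 0, 0, -1], [0, 0, 0, -1]],
    [[-2, 1, 2, 4], [0, 0, 0, -1], [0, 0, 0, -1]],
    [[0, 1, -1], [-1, 0, 0, 1], [1]],
    [[0, 0, 0, -1], [0, 1, -1], [-1, 0, 0, 1]],
    [[2, -1, -2, -3], [0, 0, 0, -1], [0, 1, -1]],
    [[1], [], []],
    [[0, 0, 0, 0], [1], []],
    [[0, 0, 0, 0], [0, 0, 0, 0], [1]],
    [[0, 1], [], [1]],
    [[0, 0, 0, -1], [0, 1], []],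
    [[0, 0, 0, 0], [0, 0, 0, -1], [0, 1]],
    [[0, 0, 1, -1], [], [1]],
    [[0, 0, 0, -1], [0, 0, 1, -1], []],
    [[0, 0, 0, 0], [0, 0, 0, -1], [0, 0, 1, -1]],
    [[0, 1, -1], [1], [1]],
    [[0, 0, 0, -1], [0, 1, -1], [1]],
    [[0, 0, 0, -1], [0, 0, 0, -1], [0, 1, -1]]]
  L := [[[1], [0, -1], [-1, 1]],
    [[-1, 1], [0, 0, 0, -1], [-1, 1, 1, 1]],
    [[-1, 1, 1, 1], [1, -1, -1, 0], [-2, 1, 2, 4]],
    [[0, -1], [1], [0, 0, 1]],
    [[0, 0, 1], [-1, 1, 1, 1], [0, 0, 0, -1]],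
    [[0, 0, 0, -1], [1, 0, -2, -2], [4, -2, -5, -6]],
    [[1], [1, 1, 0, -1], [0, 0, -1, 1]],
    [[0, 0, -1, 1], [0, 0, 0, -1], [-1, 0, 1, 2]],
    [[-1, 0, 1, 2], [1, -1, 0, -2], [-2, 1, 2, 4]],
    [[1], [], []],
    [[], [0, 0, 0, -1], [0, 0, 0, 0]],
    [[0, 0, 0, 0], [0, 0, 0, 0], [-2, 1, 2, 4]],
    [[1], [-1], []],
    [[], [0, 0, 0, -1], [0, 0, 0, 1]],
    [[0, 0, 0, 1], [0, 0, 0, 0], [-2, 1, 2, 4]],
    [[], [1], [1, 0, 0, -1]],
    [[1, 0, 0, -1], [0, 0, 0, 0], [0, 0, 0, -1]],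
    [[0, 0, 0, -1], [-2, 1, 2, 3], [0, 0, 0, 0]],
    [[0, 1, 1, -1], [1], [0, 0, 1]],
    [[0, 0, 1], [0, 0, -1, 1], [0, 0, 0, -1]],
    [[0, 0, 0, -1], [1, 0, -2, -2], [1, -1, 0, -2]]]
  M := [150, 293, 75, 1069060, 274433, 548866, 622596, 1245185, 425986, 150528, 39424, 75264, 1050648, 262704, 525352, 1049408, 263360, 526720, 82184, 135248, 41120]

def ne27fb5 : List ℕ := [1519983, 975071, 1692087, 1658235, 1448702, 829373, 1447899, 830966, 1657837, 1425264, 1011432, 1761176, 1505877, 915107, 1801486, 1030822, 1828621, 1563731, 440051, 650670, 1268573]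

theorem ce27fb5_conf : confCheck ce27fb5.M = true := by decide +kernel

theorem ce27fb5_geom : geomCheck ce27fb5 = true := by decide +kernel

theorem ce27fb5_nb : nbCheck ce27fb5.M ne27fb5 = true := by decide +kernel

theorem ce27fb5_inv : invN ne27fb5 = (265749, 29721) := by decide +kernel

end H75C
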