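import Pool.Agent.H75.Conf21.Inv
import Pool.Agent.H75.Conf21.Cyc
import Pool.Agent.H75.Conf21.NotCyc

/-!
Coordinates and incidences of (21_4) configurations, with the checks.
-/

namespace H75C

def ce6074a : Cfg where
  f := [-1, 2, 0, -1]
  A := 137
  D := 256
  B := 1
  P := [[[1], [], []],
    [[0, 1, 0, -1], [], [1]],
    [[], [1], []],
    [[0, 1, 0, -1], [0, 1], [1]],
    [[0, 1, 0, -1], [1, 0, -1], [1]],
    [[], [], [1]],
    [[1, -1, 0, 1], [1], []],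
    [[0, 0, 0, -1], [], [1]],
    [[1], [1, 0, 0, 1], []],
    [[1, 0, -1], [0, 1], [1]],
    [[], [1, 0, -1], [1]],
    [[0, 1, -1], [0, 1], [1]],
    [[0, 1], [1, 0, -1], [1]],
    [[1, -1, -1], [0, 1, 0, -1], [1]],
    [[1, 0, -1], [1], [1]],
    [[], [0, 1, 0, -1], [1]],
    [[1], [1], [1]],
    [[0, 1, -1], [0, 1, -1], [1]],
    [[1, 0, -1], [1, 1], [1]],
    [[1], [0, 1], [-1, 0, 1, -1]],
    [[1], [1], [-2, 1, 0, -1]]]
  L := [[[], [], [1]],
    [[1], [], [-1, 0, 1]],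
    [[1], [], []],
    [[-2, 1, 0, -1], [1], [0, 0, 0, 1]],
    [[1], [-2, 1, 0, -1], [0, 0, 0, 1]],
    [[], [1], [-1, 0, 1]],
    [[1], [-1, 1, -1], [0, 0, 0, 1]],
    [[1], [-1, 0, 0, -1], [0, 0, 1, 1]],
    [[1], [-1], []],
    [[-2, 1, 0, -1], [1], [0, -1, 0, 1]],
    [[], [1], [0, -1]],
    [[-1, 1, -1], [1], [0, -1, 1]],
    [[-1, 0, 0, -1], [1], [0, -1, 1, 1]],
    [[-1, 0, 0, -1], [1], [-1, 0, 1]],
    [[1], [-1, 1], []],
    [[], [1], []],
    [[1], [-1, 1, 0, -1], [0, -1, 0, 1]],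
    [[1], [0, 1], [0, -1, 0, 1]],
    [[1], [], [0, -1, 0, 1]],
    [[-1, 1, 0, -1], [1], [0, -1, 0, 1]],
    [[1], [-1, 0, 1, -1], [0, 0, 0, 1]]]
  M := [325, 279044, 33828, 151616, 656000, 5137, 1050768, 573456, 1245216, 1343552, 2569, 598024, 1052936, 787712, 272416, 163, 66114, 140290, 30, 104448, 24960]

def ne6074a : List ℕ := [8191, 206591, 313215, 1653535, 1629343, 1551527, 1561415, 1731507, 1865165, 1002191, 963895, 1424057, 1301849, 1011114, 979924, 1956980, 1817194, 1799906, 1896292, 1042328, 1546744]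

theorem ce6074a_conf : confCheck ce6074a.M = true := by decide +kernel

theorem ce6074a_geom : geomCheck ce6074a = true := by decide +kernel

theorem ce6074a_nb : nbCheck ce6074a.M ne6074a = true := by decide +kernel

theorem ce6074a_inv : invN ne6074a = (257461, 29441) := by decide +kernel

theorem ce6074a_cls : Nat.gcd (clsN ne6074a 111) (clsN ne6074a 113) = 1 := by decide +kernel

def ce79d1a : Cfg where
  f := [-1, -1, 3, 1, -2]
  A := -567935968618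
  D := 1099511627776
  B := 1
  P := [[[1, 1, -1, -1], [1, 0, -1, 1], [1]],
    [[1, 1, -1, -1], [1, 1, -1, -1], [1, 0, -1, 1]],
    [[-1, -2, 3, 4, -1], [1, 1, -1, -1], [1, 1, -1, -1]],
    [[1], [], []],
    [[0, 0, 0, 0], [1], []],
    [[0, 0, 0, 0], [0, 0, 0, 0], [1]],
    [[0, -1, 1, 2, -1], [1, 0, -1, 1], [1]],
    [[1, 1, -1, -1], [0, -1, 1, 2, -1], [1, 0, -1, 1]],
    [[-1, -2, 3, 4, -1], [1, 1, -1, -1], [0, -1, 1, 2, -1]],
    [[1, 1, -1, -1], [1, 0, -1], [1]],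
    [[1, 1, -1, -1], [1, 1, -1, -1], [1, 0, -1]],
    [[2, 2, -5, -3, 3], [1, 1, -1, -1], [1, 1, -1, -1]],
    [[0, -2, -1, 1, -1], [3, 4, -1, -1, 1], [1]],
    [[1, 1, -1, -1], [0, -2, -1, 1, -1], [3, 4, -1, -1, 1]],
    [[3, 5, -3, -4, 2], [1, 1, -1, -1], [0, -2, -1, 1, -1]],
    [[1, 1, -1], [1], [1]],
    [[1, 1, -1, -1], [1, 1, -1], [1]],
    [[1, 1, -1, -1], [1, 1, -1, -1], [1, 1, -1]],
    [[1, 0, -2], [1, 0, -1], [1]],
    [[1, 1, -1, -1], [1, 0, -2], [1, 0, -1]],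
    [[2, 2, -5, -3, 3], [1, 1, -1, -1], [1, 0, -2]]]
  L := [[[1], [], [-1, 0, 1, -1]],
    [[-1, 0, 1, -1], [1, 1, -1, -1], [0, 0, 0, 0]],
    [[0, 0, 0, 0], [1, 2, -3, -4, 1], [5, 7, -12, -11, 6]],
    [[], [1], [-1]],
    [[-1], [0, 0, 0, 0], [1, 1, -1, -1]],
    [[1, 1, -1, -1], [-1, -1, 1, 1], [0, 0, 0, 0, 0]],
    [[1], [0, 1, 0, -1, 1], [-1, -1, 1, 0, -1]],
    [[-1, -1, 1, 0, -1], [1, 1, -1, -1], [-1, -2, 1, 4, 2]],
    [[-1, -2, 1, 4, 2], [2, 4, -4, -8, -1], [5, 7, -12, -11, 6]],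
    [[1], [-1, -1], [0, 1, 1]],
    [[0, 1, 1], [1, 1, -1, -1], [-1, -2, 0, 2, 1]],
    [[-1, -2, 0, 2, 1], [-1, 0, 5, 1, -4], [5, 7, -12, -11, 6]],
    [[], [1], [-1, 0, 1]],
    [[-1, 0, 1], [0, 0, 0, 0], [1, 1, -1, -1]],
    [[1, 1, -1, -1], [-2, -2, 5, 3, -3], [0, 0, 0, 0, 0]],
    [[1], [], [0, 2, 1, -1, 1]],
    [[0, 2, 1, -1, 1], [1, 1, -1, -1], [0, 0, 0, 0]],
    [[0, 0, 0, 0], [-2, -2, 6, 5, -2], [5, 7, -12, -11, 6]],
    [[1], [-1, 2, 2, -2, 1], [0, -1, -1]],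
    [[0, -1, -1], [1, 1, -1, -1], [-1, 0, 3, 1, -1]],
    [[-1, 0, 3, 1, -1], [1, 0, -5, -1, 4], [5, 7, -12, -11, 6]]]
  M := [150, 293, 75, 34828, 66065, 132130, 593924, 1187841, 311298, 84992, 137728, 42496, 262792, 525584, 1050720, 1069072, 274464, 548872, 655552, 1081728, 328000]

def ne79d1a : List ℕ := [1254271, 443647, 629183, 846543, 1660823, 1457511, 2034155, 1999838, 1934837, 507545, 782130, 1302124, 2062900, 2029097, 1965082, 1372046, 876373, 1720035, 390122, 751068, 1243633]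

theorem ce79d1a_conf : confCheck ce79d1a.M = true := by decide +kernel

theorem ce79d1a_geom : geomCheck ce79d1a = true := by decide +kernel

theorem ce79d1a_nb : nbCheck ce79d1a.M ne79d1a = true := by decide +kernel

theorem ce79d1a_inv : invN ne79d1a = (250893, 29361) := by decide +kernel

theorem ce79d1a_cyc : cycCheck ce79d1a [1, 1, -1, -1] = true := by decide +kernel

def cea6495 : Cfg where
  f := [-1, 1, 1, 0, 1]
  A := 2369763142
  D := 4294967296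
  B := 1
  P := [[[0, 1, 1, 1, 1], [2, 2, 1, 1, 1], [1]],
    [[0, -1, 0, 1, 1], [0, 1, 1, 1, 1], [2, 2, 1, 1, 1]],
    [[0, -1, -2, 0, 1], [0, -1, 0, 1, 1], [0, 1, 1, 1, 1]],
    [[], [1, 0, -1, -1], [1]],
    [[0, -1, 0, 1, 1], [], [1, 0, -1, -1]],
    [[0, -2, 0, 4, 3], [0, -1, 0, 1, 1], []],
    [[0, -1, 0, 1, 1], [0, -1, 0, 1, 1], [1]],
    [[0, -1, 0, 1, 1], [0, -1, 0, 1, 1], [0, -1, 0, 1, 1]],
    [[-3, 3, 5, 0, -1], [0, -1, 0, 1, 1], [0, -1, 0, 1, 1]],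
    [[0, 0, -1, -1], [0, 0, 1], [1]],
    [[0, -1, 0, 1, 1], [0, 0, -1, -1], [0, 0, 1]],
    [[0, 1, -1, -2, 0], [0, -1, 0, 1, 1], [0, 0, -1, -1]],
    [[1], [], []],
    [[0, 0, 0, 0, 0], [1], []],
    [[0, 0, 0, 0, 0], [0, 0, 0, 0, 0], [1]],
    [[0, -1, 0, 1, 1], [0, 0, 1], [1]],
    [[0, -1, 0, 1, 1], [0, -1, 0, 1, 1], [0, 0, 1]],
    [[0, 1, -1, -2, 0], [0, -1, 0, 1, 1], [0, -1, 0, 1, 1]],
    [[1], [1, 0, 0, 1], []],
    [[0, 0, 0, 0, 0], [1], [1, 0, 0, 1]],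
    [[0, -1, 1, 0, -1], [0, 0, 0, 0, 0], [1]]]
  L := [[[1], [-1, -1], [0, 1]],
    [[0, 1], [0, -1, 0, 1, 1], [-1, 2, 2, -1, -1]],
    [[-1, 2, 2, -1, -1], [1, -1, -2, 0, 0], [-3, 3, 5, 0, -1]],
    [[-1, 0, 0, -1], [1], [0, -1, -1]],
    [[0, -1, -1], [0, 1, -1, 0, 1], [0, -1, 0, 1, 1]],
    [[0, -1, 0, 1, 1], [-1, 0, 3, 2, 0], [-1, 0, 1, 3, 1]],
    [[1], [], [1, 0, -1, 1, 1]],
    [[1, 0, -1, 1, 1], [0, -1, 0, 1, 1], [0, 0, 0, 0, 0]],
    [[0, 0, 0, 0, 0], [-2, 0, 4, 3, 0], [-3, 3, 5, 0, -1]],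
    [[0, 0, -1, -1], [1], [-1, 0, 1, 1]],
    [[-1, 0, 1, 1], [0, -1, 0, 3, 2], [0, -1, 0, 1, 1]],
    [[0, -1, 0, 1, 1], [0, 2, 0, -4, -3], [-5, 5, 9, -1, -4]],
    [[1], [], [0, 1, 0, -1, -1]],
    [[0, 1, 0, -1, -1], [0, -1, 0, 1, 1], [0, 0, 0, 0, 0]],
    [[0, 0, 0, 0, 0], [3, -3, -5, 0, 1], [-3, 3, 5, 0, -1]],
    [[], [1], []],
    [[], [0, 0, 0, 0, 0], [0, -1, 0, 1, 1]],
    [[0, -1, 0, 1, 1], [0, 0, 0, 0, 0], [0, 0, 0, 0, 0]],
    [[1], [0, -1, -1], [0, 1]],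
    [[0, 1], [0, -1, 0, 1, 1], [-1, 0, 3, 2, 0]],
    [[-1, 0, 3, 2, 0], [1, -1, -2, 0, 0], [-3, 3, 5, 0, -1]]]
  M := [150, 293, 75, 786948, 1573889, 1312770, 74756, 149505, 37378, 2696, 1808, 3168, 41280, 82112, 135552, 1069072, 274464, 548872, 426000, 622624, 1245192]

def nea6495 : List ℕ := [1723759, 1350367, 862135, 1796811, 1496982, 900453, 126443, 220126, 178165, 827294, 1650549, 1461995, 1504178, 914796, 1800409, 1028978, 1828076, 1563033, 2013750, 1959469, 2055195]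

theorem cea6495_conf : confCheck cea6495.M = true := by decide +kernel

theorem cea6495_geom : geomCheck cea6495 = true := by decide +kernel

theorem cea6495_nb : nbCheck cea6495.M nea6495 = true := by decide +kernel

theorem cea6495_inv : invN nea6495 = (265485, 29721) := by decide +kernel

theorem cea6495_cyc : cycCheck cea6495 [0, -1, 0, 1, 1] = true := by decide +kernel

def cefe59a : Cfg where
  f := [-3, -4]
  A := 1189
  D := 256
  B := 5
  P := [[[1], [], []],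
    [[], [1], [-1]],
    [[2], [-1, 1], [7, -1]],
    [[1], [3], []],
    [[3], [2, 1], [7, -1]],
    [[1], [-1], [1]],
    [[1], [1], [-1]],
    [[1], [1, 2], [2, 1]],
    [[0, 1], [0, 1], [3]],
    [[], [1], []],
    [[2], [3], []],
    [[2], [-1, 1], [-8, 2]],
    [[2], [1, 1], [2]],
    [[], [], [1]],
    [[2], [], [3]],
    [[2], [-1, 1], [4, -1]],
    [[], [-1, -1], [1]],
    [[1], [1], [1]],
    [[1], [3], [3]],
    [[0, 1], [0, 3], [3]],
    [[2, 1], [0, 3], [3]]]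
  L := [[[3], [-1], [-1]],
    [[1], [], []],
    [[3], [-2], [-2]],
    [[1], [-1], []],
    [[3], [-2], [1]],
    [[-2, -1], [3], [1, -1]],
    [[3], [], [0, -1]],
    [[3], [-5, 1], [-2]],
    [[-3, 3], [-1, -1], [2]],
    [[3], [-1], [-2]],
    [[3], [-1], []],
    [[1, -1], [2], []],
    [[-2, -1], [1], [1, 1]],
    [[3], [-2], [-2, 1]],
    [[0, -1], [1], [1, 1]],
    [[1], [], [-1]],
    [[3], [1], [-2]],
    [[], [1], [1]],
    [[], [2], [-1, -1]],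
    [[], [], [1]],
    [[], [3], [0, -1]]]
  M := [30, 74242, 50178, 139584, 265280, 557248, 527104, 86020, 1343504, 1196040, 794632, 43012, 720912, 1053824, 1114400, 135712, 278688, 99, 6161, 1545, 389]

def nefe59a : List ℕ := [8191, 124543, 129439, 1992223, 2070559, 1528803, 962019, 1889765, 1780709, 737067, 1367755, 835413, 1269429, 1026894, 1561774, 1895638, 1798966, 1799032, 1895672, 1027032, 1562040]

theorem cefe59a_conf : confCheck cefe59a.M = true := by decide +kernel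

theorem cefe59a_geom : geomCheck cefe59a = true := by decide +kernel

theorem cefe59a_nb : nbCheck cefe59a.M nefe59a = true := by decide +kernel

theorem cefe59a_inv : invN nefe59a = (265557, 29625) := by decide +kernel

theorem cefe59a_cls : Nat.gcd (clsN nefe59a 115) (clsN nefe59a 113) = 1 := by decide +kernel

def cf09045 : Cfg where
  f := [-3, 6, -5, -2]
  A := 202582
  D := 65536
  B := 4
  P := [[[0, 0, 4], [0, -3, -1, 1], [3]],
    [[6, -18, 18], [0, 0, 4], [0, -3, -1, 1]],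
    [[0, 12, -20, 20], [6, -18, 18], [0, 0, 4]],
    [[0, -6, -2, 2], [0, -3, -1, 1], [3]],
    [[6, -18, 18], [0, -6, -2, 2], [0, -3, -1, 1]],
    [[0, 12, -20, 20], [6, -18, 18], [0, -6, -2, 2]],
    [[1], [], []],
    [[0, 0, 0], [1], []],
    [[0, 0, 0], [0, 0, 0], [1]],
    [[0, 0, 8], [-3, 9, -1], [6]],
    [[12, -36, 36], [0, 0, 8], [-3, 9, -1]],
    [[-24, 72, -104, 48], [12, -36, 36], [0, 0, 8]],
    [[-4, 6, -2, -2], [-2, 3, -1, -1], [2]],
    [[4, -12, 12], [-4, 6, -2, -2], [-2, 3, -1, -1]],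
    [[-40, 72, -56, -32], [4, -12, 12], [-4, 6, -2, -2]],
    [[-4, 6, -2, -2], [1, 0, 2, 1], [2]],
    [[4, -12, 12], [-4, 6, -2, -2], [1, 0, 2, 1]],
    [[56, -96, 64, 56], [4, -12, 12], [-4, 6, -2, -2]],
    [[-2, 3, 3, -1], [2], [1]],
    [[2, -6, 6], [-2, 3, 3, -1], [2]],
    [[4, -12, 12], [2, -6, 6], [-2, 3, 3, -1]]]
  L := [[[1], [], [-1, 0, 2, -1]],
    [[-1, 0, 2, -1], [2, -6, 6], [0, 0, 0]],
    [[0, 0, 0], [16, -48, 64, -32], [112, -240, 240, 0]],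
    [[1], [2], [1, -3, -1]],
    [[1, -3, -1], [2, -6, 6], [4, -12, 12]],
    [[4, -12, 12], [-16, 24, -8, -24], [112, -240, 240, 0]],
    [[], [2], [2, -3, -3, 1]],
    [[2, -3, -3, 1], [0, 0, 0], [4, -12, 12]],
    [[4, -12, 12], [-32, 72, -72, 8], [0, 0, 0, 0]],
    [[1], [-2], []],
    [[], [2, -6, 6], [-4, 12, -12]],
    [[-4, 12, -12], [0, 0, 0], [112, -240, 240, 0]],
    [[1], [1, -3, 1], []],
    [[], [2, -6, 6], [20, -48, 56, -12]],
    [[20, -48, 56, -12], [0, 0, 0], [112, -240, 240, 0]],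
    [[3], [3, -2, -2, 1], [0, -2, -2, -2]],
    [[0, -2, -2, -2], [6, -18, 18], [-12, 32, -40, 20]],
    [[-12, 32, -40, 20], [-72, 104, -40, -112], [336, -720, 720, 0]],
    [[2], [-1, -1, 1], [0, 2, 2, -2]],
    [[0, 2, 2, -2], [4, -12, 12], [16, -32, 32, 0]],
    [[16, -32, 32, 0], [0, -32, 64, -64], [224, -480, 480, 0]]]
  M := [150, 293, 75, 49668, 70657, 141314, 526404, 1049217, 263426, 1052936, 270416, 540832, 106752, 213056, 168064, 1606656, 1378304, 918016, 18456, 4656, 9256]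

def nf09045 : List ℕ := [1120239, 404959, 576503, 1080699, 293630, 554941, 1009759, 1757879, 1422639, 2020021, 1946923, 2058334, 1284025, 503162, 772860, 1832836, 1572161, 1047234, 2043730, 2019044, 1941385]

theorem cf09045_conf : confCheck cf09045.M = true := by decide +kernel

theorem cf09045_geom : geomCheck cf09045 = true := by decide +kernel

theorem cf09045_nb : nbCheck cf09045.M nf09045 = true := by decide +kernel

theorem cf09045_inv : invN nf09045 = (275037, 29889) := by decide +kernel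

theorem cf09045_cyc : cycCheck cf09045 [2, -6, 6] = true := by decide +kernel

end H75C
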